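import Pool.Agent.W2helper30.AN.Gold
import Pool.Agent.W2helper30.AN.Ex
import Pool.Agent.R459.C2
import Pool.Agent.H560R3.GB.Defs

/-!
# Goldbach-Knjzek partitions in windows near almost all members of sparse families `c₀ + κ ⌊U f(x₀ + 1 / i)⌋`

Definitions used (starting file `Pool.Agent.H560R3.GB.Defs`): `sing m`: the singular series
`2 C₂ ∏_{p ∣ m, p > 2} (p - 1) / (p - 2)`, where `C₂` is the twin prime constant `∏_{p > 2} (1 - 1 / (p - 1) ^ 2)`.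

Method: Vinogradov's mean value method for the sums of `e(θ f(x₀ + 1 / i))` with a uniform saving, and the inequality of
Kusmin and Landau for the small frequencies; a discrete Fejer kernel for the passage to integer parts. The passage from
such exponential sums to Goldbach representations in windows is from the starting files (`Pool.Agent.W93`, `Pool.Agent.TH872`),
and from `Pool.Agent.N625.DY` (helper625).
-/

set_option autoImplicit false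

namespace Pool.Agent.Results.MP_73b532_nt.AnalyticSparseFamilies

open Finset Filter Pool.Agent.H560R3.GB
open Pool.Agent.W2helper30.AN (Ord AlmostA Rg vl)

/-- `f` is real analytic at `x₀`, and `K ≥ 1` is the order of the zero of `f - f x₀` at `x₀` -/
def OrderAt (f : ℝ → ℝ) (x₀ : ℝ) (K : ℕ) : Prop :=
  AnalyticAt ℝ f x₀ ∧ 1 ≤ K ∧ (∀ j : ℕ, 1 ≤ j → j < K → iteratedDeriv j f x₀ = 0) ∧
    iteratedDeriv K f x₀ ≠ 0

/-- the range of the parameters: `M ^ (K + δ₀) ≤ U ≤ exp ((log M) ^ (3 / 2 - ε₀))` -/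
def InRange (K : ℕ) (δ₀ ε₀ : ℝ) (M : ℕ) (U : ℝ) : Prop :=
  (M : ℝ) ^ ((K : ℝ) + δ₀) ≤ U ∧ U ≤ Real.exp ((Real.log M) ^ (3 / 2 - ε₀))

open Classical in
/-- Almost all the integers `n = c₀ + κ ⌊U f(x₀ + 1 / i)⌋`, `M < i ≤ 2 M`, up to a proportion of at most `τ` of the `i`,
have the property `P`. -/
def Almost (f : ℝ → ℝ) (x₀ U : ℝ) (M : ℕ) (κ c₀ : ℤ) (τ : ℝ) (P : ℤ → Prop) : Prop :=
  (((Ioc M (2 * M)).filter (fun i : ℕ => ¬ P (c₀ + κ * ⌊U * f (x₀ + 1 / i)⌋))).card : ℝ) ≤ τ * M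

lemma almost_of {f : ℝ → ℝ} {x₀ U : ℝ} {M : ℕ} {κ c₀ : ℤ} {τ : ℝ} {P Q : ℤ → Prop}
    (h : AlmostA f x₀ U M κ c₀ τ P) (hPQ : ∀ n, P n → Q n) : Almost f x₀ U M κ c₀ τ Q := by
  have h1 := h.mono hPQ
  unfold AlmostA vl at h1
  unfold Almost
  convert h1

open Classical in
/-- The number of the primes `p` in the window `(y₁, y₂]` with `√(2 n) < p ≤ n` for which `2 n - p` is a prime. -/
noncomputable def K (n y₁ y₂ : ℕ) : ℕ :=
  ((Ioc y₁ y₂).filter (fun p : ℕ => p.Prime ∧ (2 * n - p).Prime ∧ √((2 * n : ℕ) : ℝ) < p ∧ p ≤ n)).card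

/-- For all windows `(y₁, y₂] ⊆ (0, n]` of length at least `n / log ^ A n` there is a prime `p` with
`√(2 n) < p ≤ n` and `y₁ < p ≤ y₂` for which `2 n - p` is a prime, and the number of these primes is
`sing (2 n) * (y₂ - y₁) / log ^ 2 (2 n)` up to a relative error of at most `ε`. -/
def Holds (ε : ℝ) (A n : ℕ) : Prop :=
  ∀ y₁ y₂ : ℕ, y₁ < y₂ → y₂ ≤ n → (n : ℝ) / Real.log n ^ A ≤ (y₂ : ℝ) - y₁ →
    (∃ p : ℕ, p.Prime ∧ (2 * n - p).Prime ∧ √((2 * n : ℕ) : ℝ) < p ∧ p ≤ n ∧ y₁ < p ∧ p ≤ y₂) ∧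
    |(K n y₁ y₂ : ℝ) - sing (2 * n) * (((y₂ : ℝ) - y₁) / Real.log (2 * n : ℕ) ^ 2)| ≤
      ε * (sing (2 * n) * (((y₂ : ℝ) - y₁) / Real.log (2 * n : ℕ) ^ 2))

lemma K_le (n y₁ y₂ : ℕ) : K n y₁ y₂ ≤ Pool.Agent.W93.PG.cnt (2 * n) y₁ y₂ := by
  classical
  unfold K Pool.Agent.W93.PG.cnt
  apply card_le_card
  intro p hp
  rw [mem_filter] at hp ⊢
  exact ⟨hp.1, hp.2.1, hp.2.2.1⟩

lemma K_ge (n y₁ y₂ : ℕ) (hy : y₂ ≤ n) :
    (Pool.Agent.W93.PG.cnt (2 * n) y₁ y₂ : ℝ) ≤ K n y₁ y₂ + (√((2 * n : ℕ) : ℝ) + 2) := by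
  classical
  have h1 : (Ioc y₁ y₂).filter (fun p => p.Prime ∧ (2 * n - p).Prime) ⊆
      (Ioc y₁ y₂).filter (fun p : ℕ => p.Prime ∧ (2 * n - p).Prime ∧ √((2 * n : ℕ) : ℝ) < p ∧ p ≤ n) ∪
      range (⌊√((2 * n : ℕ) : ℝ)⌋₊ + 1) := by
    intro p hp
    rw [mem_filter, mem_Ioc] at hp
    rw [mem_union, mem_filter, mem_Ioc, mem_range]
    obtain ⟨⟨a1, a2⟩, a3, a4⟩ := hp
    by_cases h2 : √((2 * n : ℕ) : ℝ) < p
    · exact Or.inl ⟨⟨a1, a2⟩, a3, a4, h2, a2.trans hy⟩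
    · right
      rw [Nat.lt_succ_iff]
      exact Nat.le_floor (not_lt.1 h2)
  have h3 := (card_le_card h1).trans (card_union_le _ _)
  rw [card_range] at h3
  have h4 : (Pool.Agent.W93.PG.cnt (2 * n) y₁ y₂ : ℝ) ≤ K n y₁ y₂ + ((⌊√((2 * n : ℕ) : ℝ)⌋₊ : ℝ) + 1) := by
    unfold Pool.Agent.W93.PG.cnt K
    exact_mod_cast h3
  have h5 := Nat.floor_le (Real.sqrt_nonneg ((2 * n : ℕ) : ℝ))
  linarith

lemma holds_of (A : ℕ) (ε : ℝ) (hε : 0 < ε) : ∃ m₀ : ℕ, ∀ n : ℕ, m₀ ≤ 2 * n →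
    Pool.Agent.W93.PG.WinP (min ε (1 / 2) / 2) (A + 1) (2 * n) → Holds ε A n := by
  obtain ⟨ε', hε'⟩ : ∃ ε', ε' = min ε (1 / 2) := ⟨_, rfl⟩
  have he0 : 0 < ε' := by rw [hε']; exact lt_min hε (by norm_num)
  have he1 : ε' ≤ ε := by rw [hε']; exact min_le_left _ _
  have he2 : ε' ≤ 1 / 2 := by rw [hε']; exact min_le_right _ _
  obtain ⟨n1, h1⟩ := Pool.Agent.H373R2.T7.ev_L' 3
  obtain ⟨n2, h2⟩ := Pool.Agent.H373R2.T7.ev_log' (A + 2) (10 / ε')
  rw [← hε']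
  refine ⟨n1 + n2 + 6, fun n hn hw => ?_⟩
  have hL := h1 (2 * n) (by omega)
  have hc := h2 (2 * n) (by omega)
  intro y₁ y₂ hy hyn hl
  have hn3 : (3 : ℝ) ≤ n := by exact_mod_cast (by omega : 3 ≤ n)
  obtain ⟨L, hLd⟩ : ∃ L, L = Real.log ((2 * n : ℕ) : ℝ) := ⟨_, rfl⟩
  obtain ⟨R, hR⟩ : ∃ R, R = √((2 * n : ℕ) : ℝ) := ⟨_, rfl⟩
  have hR2 : R * R = 2 * n := by
    rw [hR, Real.mul_self_sqrt (Nat.cast_nonneg _)]
    push_cast
    ring
  have hR1 : 1 ≤ R := by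
    rw [hR]
    apply Real.one_le_sqrt.2
    push_cast
    linarith
  rw [← hLd] at hL hc
  rw [← hR] at hc
  have hlog0 : 1 ≤ Real.log (n : ℝ) := by
    rw [Real.le_log_iff_exp_le (by linarith)]
    linarith [Real.exp_one_lt_d9]
  have hlogL : Real.log (n : ℝ) ≤ L := by
    rw [hLd]
    exact Real.log_le_log (by linarith) (by exact_mod_cast (by omega : n ≤ 2 * n))
  have hyr : (y₁ : ℝ) < y₂ := by exact_mod_cast hy
  obtain ⟨D, hD⟩ : ∃ D : ℝ, D = (y₂ : ℝ) - y₁ := ⟨_, rfl⟩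
  have hD1 : n / L ^ A ≤ D := by
    rw [hD]
    refine le_trans ?_ hl
    apply div_le_div_of_nonneg_left (by linarith) (by positivity)
    exact pow_le_pow_left₀ (by linarith) hlogL _
  have hwin := hw y₁ y₂ hy (by omega) (by
    rw [← hLd, ← hD]
    refine le_trans ?_ hD1
    have e : ((2 * n : ℕ) : ℝ) = 2 * n := by push_cast; ring
    rw [e, pow_succ, div_le_div_iff₀ (by positivity) (by positivity)]
    have : 0 ≤ (n : ℝ) * L ^ A := by positivity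
    nlinarith)
  rw [← hLd, ← hD] at hwin
  obtain ⟨M, hM⟩ : ∃ M : ℝ, M = sing (2 * n) * (D / L ^ 2) := ⟨_, rfl⟩
  have e1 : sing (2 * n) * D / L ^ 2 = M := by rw [hM]; ring
  rw [e1] at hwin
  rw [← hLd, ← hD, ← hM]
  have hs := Pool.Agent.R459.sing_num (2 * n)
  have hD0 : 0 < D := by rw [hD]; linarith
  have hQ0 : 0 < D / L ^ 2 := by positivity
  have hM1 : 327 / 250 * (D / L ^ 2) ≤ M := by
    rw [hM]
    exact mul_le_mul_of_nonneg_right hs hQ0.le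
  have hbig : R + 2 ≤ ε' / 2 * M := by
    have h3 : n / L ^ (A + 2) ≤ D / L ^ 2 := by
      rw [pow_add, ← div_div]
      exact div_le_div_of_nonneg_right hD1 (by positivity)
    have h4 : 10 / ε' * L ^ (A + 2) ≤ R := hc
    have h5 : 5 * R ≤ ε' * (n / L ^ (A + 2)) := by
      rw [mul_div_assoc', le_div_iff₀ (by positivity)]
      have h6 : 10 * L ^ (A + 2) ≤ ε' * R := by
        have h7 : ε' * (10 / ε' * L ^ (A + 2)) ≤ ε' * R := mul_le_mul_of_nonneg_left h4 he0.le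
        have h8 : ε' * (10 / ε' * L ^ (A + 2)) = 10 * L ^ (A + 2) := by field_simp
        rw [← h8]
        exact h7
      have h9 : R * (10 * L ^ (A + 2)) ≤ R * (ε' * R) := mul_le_mul_of_nonneg_left h6 (by linarith)
      have h10 : R * (ε' * R) = ε' * (2 * n) := by rw [← hR2]; ring
      nlinarith
    have h11 : ε' * (n / L ^ (A + 2)) ≤ ε' * (D / L ^ 2) := mul_le_mul_of_nonneg_left h3 he0.le
    have h12 : ε' * (327 / 250 * (D / L ^ 2)) ≤ ε' * M := mul_le_mul_of_nonneg_left hM1 he0.le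
    nlinarith
  have hK1 : (K n y₁ y₂ : ℝ) ≤ Pool.Agent.W93.PG.cnt (2 * n) y₁ y₂ := by exact_mod_cast K_le n y₁ y₂
  have hK2 := K_ge n y₁ y₂ hyn
  rw [← hR] at hK2
  have hM0 : 0 < M := by linarith [mul_pos (by norm_num : (0 : ℝ) < 327 / 250) hQ0]
  have hfin : |(K n y₁ y₂ : ℝ) - M| ≤ ε' * M := by
    rw [abs_le] at hwin ⊢
    constructor <;> linarith [hwin.1, hwin.2]
  refine ⟨?_, hfin.trans (mul_le_mul_of_nonneg_right he1 hM0.le)⟩
  have hpos : 0 < K n y₁ y₂ := by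
    have h3 := (abs_le.1 hfin).1
    have h4 : (0 : ℝ) < K n y₁ y₂ := by nlinarith
    exact_mod_cast h4
  classical
  unfold K at hpos
  obtain ⟨p, hp⟩ := card_pos.1 hpos
  rw [mem_filter, mem_Ioc] at hp
  exact ⟨p, hp.2.1, hp.2.2.1, hp.2.2.2.1, hp.2.2.2.2, hp.1.1, hp.1.2⟩

/-- **(1)** Let `f` be real analytic at `x₀`, and let `K` be the order of `f - f x₀` at `x₀`; let `δ₀ > 0` and
`0 < ε₀ < 1 / 2`, and let `κ ≠ 0`, `A`, `W`, `u`, `a` and `ε > 0` be fixed. For all large `M`, all real `U` with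
`M ^ (K + δ₀) ≤ U ≤ exp ((log M) ^ (3 / 2 - ε₀))` and all integers `c₀` with
`|c₀ + κ U f(x₀)| ≤ (U / M ^ K) log ^ a U`, all the integers `n = c₀ + κ ⌊U f(x₀ + 1 / i)⌋`, `M < i ≤ 2 M`, with at most
`M / log ^ u U` exceptions, have the following property: every positive even integer `m` at a distance of at most
`log ^ W U` from `n` has the following property, with
`m = 2 h`: for all windows `(y₁, y₂] ⊆ (0, h]` of a length of at least `h / log ^ A h` there is a prime `p` in the window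
with `√m < p ≤ h` for which `m - p` is a prime, and the number of these `p` is as predicted, up to a relative error of
at most `ε`. (The integers `n` are in an interval of a length of the order of `U / M ^ K`; the condition on `c₀` means that
this interval is not much farther from `0` than it is long.)

**(2)** Part (1) applies to every function `f` which is real analytic at `x₀` and not constant near `x₀`, with a suitable `K`,
and with `K = 1` if the derivative of `f` at `x₀` is not zero; for example, to `f x = x`, `x₀ = 0`: the integers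
`c₀ + κ ⌊U / i⌋`. -/
theorem result :
    (∀ (f : ℝ → ℝ) (x₀ : ℝ) (K : ℕ), OrderAt f x₀ K → ∀ δ₀ ε₀ : ℝ, 0 < δ₀ → 0 < ε₀ → ε₀ < 1 / 2 →
      ∀ (κ : ℤ), κ ≠ 0 → ∀ (A W u a : ℕ) (ε : ℝ), 0 < ε → ∃ M₀ : ℕ, ∀ M : ℕ, M₀ ≤ M →
      ∀ U : ℝ, InRange K δ₀ ε₀ M U → ∀ c₀ : ℤ, |(c₀ : ℝ) + κ * (U * f x₀)| ≤ U / (M : ℝ) ^ K * Real.log U ^ a →
        Almost f x₀ U M κ c₀ (1 / Real.log U ^ u) (fun n => ∀ m : ℤ, |(m : ℝ) - n| ≤ Real.log U ^ W →
          0 < m → Even m → Holds ε A (m.toNat / 2))) ∧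
    (∀ (f : ℝ → ℝ) (x₀ : ℝ), AnalyticAt ℝ f x₀ → (¬ ∀ᶠ x in nhds x₀, f x = f x₀) → ∃ K : ℕ, OrderAt f x₀ K) ∧
    (∀ (f : ℝ → ℝ) (x₀ : ℝ), AnalyticAt ℝ f x₀ → deriv f x₀ ≠ 0 → OrderAt f x₀ 1) ∧
    OrderAt (fun x => x) 0 1 := by
  refine ⟨fun f x₀ K hf δ₀ ε₀ hδ₀ hε₀ hε₀2 κ hκ A W u a ε hε => ?_,
    fun f x₀ h1 h2 => Pool.Agent.W2helper30.AN.ord_exists h1 h2,
    fun f x₀ h1 h2 => Pool.Agent.W2helper30.AN.ord_one h1 h2,
    Pool.Agent.W2helper30.AN.ord_one (by fun_prop) (by simp)⟩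
  have hf' : Ord f x₀ K := hf
  obtain ⟨m₀, h0⟩ := holds_of A ε hε
  obtain ⟨M₀, h1⟩ := Pool.Agent.W2helper30.AN.an_gold hf' δ₀ ε₀ hδ₀ hε₀ hε₀2 κ hκ (A + 1) W u a m₀
    (min ε (1 / 2) / 2) (div_pos (lt_min hε (by norm_num)) (by norm_num)) (fun m => Holds ε A (m / 2)) (by
      intro m hm h2 hwin
      have e : 2 * (m / 2) = m := Nat.mul_div_cancel' h2
      exact h0 (m / 2) (by omega) (by rw [e]; exact hwin))
  exact ⟨M₀, fun M hM U hU c₀ hc₀ => almost_of (h1 M hM U ⟨hU.1, hU.2⟩ c₀ hc₀) fun n hn => hn⟩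

end Pool.Agent.Results.MP_73b532_nt.AnalyticSparseFamilies
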