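import Pool.Agent.W2helper62.TJ

/-!
# The same prime `p` for several random even numbers: Goldbach–Knjzek partitions with `p` from an arbitrary dense set of primes

Nothing is used besides Mathlib in the statement: `∑ v ∈ piFinset (fun _ => range (b ^ k)), (if P v then 0 else ∏ j, μ j (v j))`
is the probability that the vector of the independent random integers `v j < b ^ k` with the distributions `μ j` does not
have the property `P`.

Method: if blocks of digits can be exchanged then the exponential sums are exponentially small in the number of the places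
at which the frequency is not close to a rational number with a small denominator; the second moment over random
multiples of a small primorial is compared with the sieve (starting files, `Pool.Agent.N625.PT`, helper625).
-/

set_option autoImplicit false

open Finset

namespace Pool.Agent.Results.MP_73b532_nt.ExchangeableCommonPrimes

/-- The probability, for the distribution `μ` on the words of `k` digits (the integers `v < b ^ k`), that the word begins with
the `i` digits of `u < b ^ i`. -/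
noncomputable def begins (b k : ℕ) (μ : ℕ → ℝ) (i u : ℕ) : ℝ := ∑ w ∈ range (b ^ (k - i)), μ (u * b ^ (k - i) + w)

/-- `p` is a probability on the words of `k` digits in base `b`, read as integers `v < b ^ k`. There is another probability
`μ` with `p ≤ k ^ T μ` such that after every beginning `u` two different blocks `a`, `a'` of `L` digits can be exchanged:
`p (u a w) = r p (u a' w)` for all endings `w`, with a factor `r` between `η` and `1 / η` which does not depend on `w`; and
given the beginning `u`, each of the two blocks comes next with a probability of at least `η` in the distribution `μ`.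
(For `T = 0` one has `μ = p`. For the uniform distribution on a set of words `r` is `1`.) -/
structure Exchangeable (b L : ℕ) (η : ℝ) (T k : ℕ) (p : ℕ → ℝ) : Prop where
  nonneg : ∀ v, 0 ≤ p v
  sum : ∑ v ∈ range (b ^ k), p v = 1
  dominated : ∃ μ : ℕ → ℝ, (∀ v, 0 ≤ μ v) ∧ ∑ v ∈ range (b ^ k), μ v = 1 ∧ (∀ v < b ^ k, p v ≤ (k : ℝ) ^ T * μ v) ∧
    ∀ i u : ℕ, i + L ≤ k → u < b ^ i → ∃ (a a' : ℕ) (r : ℝ), a < a' ∧ a' < b ^ L ∧ η ≤ r ∧ η * r ≤ 1 ∧
      (∀ w < b ^ (k - (i + L)), p ((b ^ L * u + a) * b ^ (k - (i + L)) + w) = r * p ((b ^ L * u + a') * b ^ (k - (i + L)) + w)) ∧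
      η * begins b k μ i u ≤ begins b k μ (i + L) (b ^ L * u + a) ∧
      η * begins b k μ i u ≤ begins b k μ (i + L) (b ^ L * u + a')

/-- the product of `1 - 1/q` over the primes `q ≤ y` -/
noncomputable def V (y : ℕ) : ℝ := ∏ q ∈ (Icc 1 y).filter Nat.Prime, (1 - 1 / (q : ℝ))

/-- the multiple of the product of the primes `≤ y` given by the integers `h` and `c + κ v`; it is even if `y ≥ 2` -/
def Nv (y h : ℕ) (c κ : ℤ) (v : ℕ) : ℤ := ((primorial y * h : ℕ) : ℤ) * (c + κ * v)

/-- the primes `p ∈ S` which satisfy `√N < p ≤ N / 2` and for which `N - p` is prime, for the first `t` of the numbers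
`N = N 0, N 1, ...` (so each `p` is the smaller summand of a Goldbach–Knjzek partition of all these `N` at the same time) -/
noncomputable def Common {r : ℕ} (S : Finset ℕ) (N : Fin r → ℤ) (t : ℕ) : Finset ℕ :=
  S.filter (fun p : ℕ => ∀ j : Fin r, (j : ℕ) < t → √(N j : ℝ) < p ∧ 2 * (p : ℤ) ≤ N j ∧ (N j - p).toNat.Prime)

lemma begins_sum (b k : ℕ) (μ : ℕ → ℝ) (i u : ℕ) (hi : i < k) :
    ∑ a ∈ range b, begins b k μ (i + 1) (b * u + a) = begins b k μ i u := by
  unfold begins
  obtain ⟨n, hn⟩ : ∃ n, k - i = n + 1 := ⟨k - i - 1, by omega⟩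
  have h1 : k - (i + 1) = n := by omega
  rw [h1, hn, pow_succ, mul_comm (b ^ n) b, Pool.Agent.N625.PT.sum_blocks b (b ^ n)]
  apply sum_congr rfl
  intro a _
  apply sum_congr rfl
  intro w _
  congr 1
  ring

lemma flex_of {b L T k : ℕ} {η : ℝ} {p : ℕ → ℝ} (hp : Exchangeable b L η T k p) : Pool.Agent.N625.PT.Flex b L η T k p := by
  obtain ⟨h0, h1, μ, m0, m1, m2, m3⟩ := hp
  have hT : (0 : ℝ) ≤ (k : ℝ) ^ T := by positivity
  have hb0 : ∀ i u, 0 ≤ begins b k μ i u := fun i u => sum_nonneg fun w _ => m0 _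
  refine ⟨h0, h1, fun i u => (k : ℝ) ^ T * begins b k μ i u, fun i u => mul_nonneg hT (hb0 i u), ?_, ?_, ?_, ?_⟩
  · intro v hv
    refine (m2 v hv).trans (le_of_eq ?_)
    unfold begins
    simp
  · intro i hi u _
    simp only
    rw [← mul_sum, begins_sum b k μ i u hi]
  · simp only
    have : begins b k μ 0 0 = 1 := by
      unfold begins
      simpa using m1
    rw [this, mul_one]
  · intro i u hi hu
    obtain ⟨a, a', r, q1, q2, q3, q4, q5, q6, q7⟩ := m3 i u hi hu
    refine ⟨a, a', r, q1, q2, q3, q4, q5, ?_, ?_⟩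
    · simp only
      calc η * ((k : ℝ) ^ T * begins b k μ i u) = (k : ℝ) ^ T * (η * begins b k μ i u) := by ring
        _ ≤ _ := mul_le_mul_of_nonneg_left q6 hT
    · simp only
      calc η * ((k : ℝ) ^ T * begins b k μ i u) = (k : ℝ) ^ T * (η * begins b k μ i u) := by ring
        _ ≤ _ := mul_le_mul_of_nonneg_left q7 hT

/-- **Goldbach–Knjzek partitions of several random even numbers with the same prime.** Let `b ≥ 2`, `L ≥ 1`, `0 < η ≤ 1`,
`T₀`, `r`, `κ j ≠ 0`, `B`, `J`, `A`, `C`, `K₁`, `θ > 0` and `0 < ε ≤ 1` be fixed and let `k` be large. Let `v j < b ^ k`,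
`j < r`, be independent random integers whose distributions `μ j` have exchangeable blocks of digits, let `y` be between
`θ log k` and `K₁ log k`, `M` the product of the primes `≤ y`, `|c j| ≤ B b ^ k`, `H ≤ k ^ J`, and let `X` be an integer with
`b ^ k ≤ X k ^ C`, `X ≤ b ^ k k ^ C`. Let `S` be an ARBITRARY set of at least `X / k ^ A` primes `≤ X`. With a probability of
at least `1 - ε` all but at most `ε H ^ r` of the vectors `h`, `1 ≤ h j ≤ H`, have the following property: if the multiples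
`N j = h j M (c j + κ j v j)` are at least `2 X`, then for all `t ≤ r` the number of the primes `p ∈ S` with
`√(N j) < p ≤ N j / 2` and `N j - p` prime for all `j < t` is `#S / (V y log b ^ k) ^ t`, up to a relative error of at most
`ε`. -/
theorem result (b L : ℕ) (hb : 2 ≤ b) (hL : 1 ≤ L) (η : ℝ) (hη0 : 0 < η) (hη1 : η ≤ 1) (T₀ r : ℕ) (κ : Fin r → ℤ)
    (hκ : ∀ j, κ j ≠ 0) (B J A C K₁ : ℕ) (θ : ℝ) (hθ : 0 < θ) (ε : ℝ) (hε : 0 < ε) (hε1 : ε ≤ 1) :
    ∃ k₀ : ℕ, ∀ k : ℕ, k₀ ≤ k → ∀ μ : Fin r → ℕ → ℝ, (∀ j, Exchangeable b L η T₀ k (μ j)) →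
    ∀ y : ℕ, θ * Real.log k ≤ y → y ≤ K₁ * Real.log k → ∀ c : Fin r → ℤ, (∀ j, |c j| ≤ B * (b : ℤ) ^ k) →
    ∀ H : ℕ, H ≤ k ^ J → ∀ X : ℕ, b ^ k ≤ X * k ^ C → X ≤ b ^ k * k ^ C →
    ∀ S : Finset ℕ, S ⊆ Icc 1 X → (∀ p ∈ S, p.Prime) → (X : ℝ) ≤ S.card * (k : ℝ) ^ A →
      ∑ v ∈ Fintype.piFinset (fun _ : Fin r => range (b ^ k)),
        (if (((Fintype.piFinset (fun _ : Fin r => Icc 1 H)).filter (fun h : Fin r → ℕ => ¬
            ((∀ j, 2 * (X : ℤ) ≤ Nv y (h j) (c j) (κ j) (v j)) → ∀ t : ℕ, t ≤ r →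
              |((Common S (fun j => Nv y (h j) (c j) (κ j) (v j)) t).card : ℝ) - S.card / (V y * (k * Real.log b)) ^ t| ≤
                ε * (S.card / (V y * (k * Real.log b)) ^ t)))).card : ℝ) ≤ ε * (H : ℝ) ^ r
          then 0 else ∏ j, μ j (v j)) ≤ ε := by
  classical
  obtain ⟨k1, h1⟩ := Pool.Agent.W2helper62.TI.tuple_lawI b L hb hL η hη0 hη1 r κ hκ T₀ B J A C K₁ θ hθ (ε ^ 2 / 2) (by positivity)
    (by nlinarith)
  obtain ⟨k2, h2⟩ := Pool.Agent.W2helper62.TJ.sqrt_few b K₁ J B (C + A + 2 * r) hb (ε / 2) (by linarith) r κ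
  obtain ⟨k3, h3⟩ := Pool.Agent.N625.PT.big_enough b A C 0 hb 1 one_pos
  refine ⟨max (max k1 k2) (max k3 3), fun k hk μ hμ y hy1 hy2 c hc H hH X hX1 hX2 S hS hSp hSA => ?_⟩
  obtain ⟨b3, b4, -⟩ := h3 k (by omega)
  have hk3 : 3 ≤ k := by omega
  have hkr : (3 : ℝ) ≤ k := by exact_mod_cast hk3
  have hk0 : (0 : ℝ) < k := by linarith
  have hbr : (2 : ℝ) ≤ b := by exact_mod_cast hb
  have hlogb : 0.69 < Real.log b := by
    have := Real.log_two_gt_d9
    have := Real.log_le_log (by norm_num) hbr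
    linarith
  obtain ⟨Q, hQ⟩ : ∃ Q : ℝ, Q = V y * (k * Real.log b) := ⟨_, rfl⟩
  have hVe : V y = Pool.Agent.H373R2.T7.Vz y := rfl
  have hVy : 0 < V y := Pool.Agent.H373R2.T7.Vz_pos y
  have hV1 : V y ≤ 1 := Pool.Agent.H373R2.T7.Vz_le_one y
  have hQ0 : 0 < Q := by rw [hQ]; exact mul_pos hVy (mul_pos hk0 (by linarith))
  have hQk : Q ≤ (k : ℝ) ^ 2 := by
    rw [hQ, sq]
    have g1 : (k : ℝ) * Real.log b ≤ k * k := mul_le_mul_of_nonneg_left b4 hk0.le
    have g2 : V y * (k * Real.log b) ≤ 1 * (k * Real.log b) := mul_le_mul_of_nonneg_right hV1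
      (mul_nonneg hk0.le (by linarith))
    linarith
  have hX0 : 1 ≤ X := by
    rcases Nat.eq_zero_or_pos X with h | h
    · rw [h, zero_mul] at hX1
      have : 0 < b ^ k := by positivity
      omega
    · exact h
  have hmain : ∀ t ≤ r, (b : ℝ) ^ k ≤ S.card / Q ^ t * (k : ℝ) ^ (C + A + 2 * r) := by
    intro t ht
    have g1 : Q ^ t ≤ (k : ℝ) ^ (2 * r) := by
      calc Q ^ t ≤ ((k : ℝ) ^ 2) ^ t := pow_le_pow_left₀ hQ0.le hQk t
        _ = (k : ℝ) ^ (2 * t) := by rw [← pow_mul]
        _ ≤ _ := pow_le_pow_right₀ (by linarith) (by omega)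
    have g2 : (b : ℝ) ^ k ≤ X * (k : ℝ) ^ C := by exact_mod_cast hX1
    have hQt : 0 < Q ^ t := by positivity
    have hS0 : (0 : ℝ) ≤ S.card := Nat.cast_nonneg _
    rw [div_mul_eq_mul_div, le_div_iff₀ hQt]
    calc (b : ℝ) ^ k * Q ^ t ≤ (X * (k : ℝ) ^ C) * (k : ℝ) ^ (2 * r) := by
          apply mul_le_mul g2 g1 hQt.le (by positivity)
      _ ≤ ((S.card * (k : ℝ) ^ A) * (k : ℝ) ^ C) * (k : ℝ) ^ (2 * r) := by
          apply mul_le_mul_of_nonneg_right _ (by positivity)
          exact mul_le_mul_of_nonneg_right hSA (by positivity)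
      _ = _ := by rw [pow_add, pow_add]; ring
  obtain ⟨Bd, hBd⟩ : ∃ Bd : (Fin r → ℕ) → (Fin r → ℕ) → Prop, ∀ h v, Bd h v ↔ ((∀ j, v j ∈ range (b ^ k)) ∧ ¬
      ((∀ j, 2 * (X : ℤ) ≤ Nv y (h j) (c j) (κ j) (v j)) → ∀ t : ℕ, t ≤ r →
              |((Common S (fun j => Nv y (h j) (c j) (κ j) (v j)) t).card : ℝ) - S.card / Q ^ t| ≤
                ε * (S.card / Q ^ t))) := ⟨_, fun _ _ => Iff.rfl⟩
  have hw : ∀ v : Fin r → ℕ, 0 ≤ ∏ j, μ j (v j) := fun v => prod_nonneg fun j _ => (hμ j).nonneg _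
  have key : ∀ h ∈ Fintype.piFinset (fun _ : Fin r => Icc 1 H), ∑ v ∈ Fintype.piFinset (fun _ : Fin r => range (b ^ k)),
      (if Bd h v then ∏ j, μ j (v j) else 0) ≤ ε * ε := by
    intro h hh
    rw [Fintype.mem_piFinset] at hh
    have hhj : ∀ j, 1 ≤ h j ∧ h j ≤ k ^ J := fun j => by
      have := mem_Icc.1 (hh j)
      exact ⟨this.1, this.2.trans hH⟩
    have h5 := h1 k (by omega) μ (fun j => flex_of (hμ j)) y hy1 hy2 c hc h hhj X hX1 hX2 S (fun _ p => p)
      (fun _ a _ b _ hab => hab) (fun j p hp => ⟨hSp p hp, (mem_Icc.1 (hS hp)).2⟩) hSA (fun _ => -1) (fun _ => Or.inr rfl)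
    refine le_trans (sum_le_sum fun v hv => ?_) (h5.trans (by nlinarith))
    rw [Fintype.mem_piFinset] at hv
    have hwv := hw v
    by_cases hq : Bd h v
    · rw [if_pos hq]
      rw [if_neg]
      intro hlaw
      rw [hBd] at hq
      apply hq.2
      intro hN t ht
      have hlaw1 := hlaw (by
        intro j p hp
        have g1 := hN j
        have g2 : ((p : ℕ) : ℤ) ≤ X := by exact_mod_cast (mem_Icc.1 (hS hp)).2
        have g3 : (1 : ℤ) ≤ X := by exact_mod_cast hX0
        have g4 : Nv y (h j) (c j) (κ j) (v j) = Pool.Agent.N625.PT.Nm y (h j) (c j) (κ j) (v j) := rfl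
        rw [g4] at g1
        linarith) t ht
      have hQ' : Pool.Agent.H373R2.T7.Vz y * (k * Real.log b) = Q := by rw [hQ]; rfl
      rw [hQ'] at hlaw1
      obtain ⟨m, hm⟩ : ∃ m : ℝ, m = S.card / Q ^ t := ⟨_, rfl⟩
      have hmt := hmain t ht
      rw [← hm] at hlaw1 hmt ⊢
      have hm0 : 0 ≤ m := by rw [hm]; positivity
      obtain ⟨E, hE⟩ : ∃ E, E = S.filter (fun p => ∀ j : Fin r, (j : ℕ) < t →
        (Pool.Agent.N625.PT.Nm y (h j) (c j) (κ j) (v j) + -1 * (p : ℕ)).toNat.Prime) := ⟨_, rfl⟩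
      rw [← hE] at hlaw1
      obtain ⟨D, hD⟩ : ∃ D, D = S.filter (fun p : ℕ => 1 ≤ p ∧ ∃ j : Fin r, (j : ℕ) < t ∧
        (p : ℝ) ≤ √(Pool.Agent.N625.PT.Nm y (h j) (c j) (κ j) (v j) : ℝ)) := ⟨_, rfl⟩
      have g5 := h2 k (by omega) y hy2 c hc h (fun j => (hhj j).2) v hv t S
      rw [← hD] at g5
      obtain ⟨G, hG⟩ : ∃ G, G = Common S (fun j => Nv y (h j) (c j) (κ j) (v j)) t := ⟨_, rfl⟩
      rw [← hG]
      have s1 : G ⊆ E := by
        intro p hp
        rw [hG] at hp
        unfold Common at hp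
        rw [mem_filter] at hp
        rw [hE, mem_filter]
        refine ⟨hp.1, fun j hj => ?_⟩
        have q1 := (hp.2 j hj).2.2
        have q2 : Nv y (h j) (c j) (κ j) (v j) - (p : ℤ) = Pool.Agent.N625.PT.Nm y (h j) (c j) (κ j) (v j) + -1 * ((p : ℕ) : ℤ) := by
          have : Nv y (h j) (c j) (κ j) (v j) = Pool.Agent.N625.PT.Nm y (h j) (c j) (κ j) (v j) := rfl
          rw [this]
          ring
        rw [← q2]
        exact q1
      have s2 : E ⊆ G ∪ D := by
        intro p hp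
        rw [hE, mem_filter] at hp
        rw [mem_union]
        by_cases hD' : p ∈ D
        · exact Or.inr hD'
        · left
          rw [hG]
          unfold Common
          rw [mem_filter]
          refine ⟨hp.1, fun j hj => ⟨?_, ?_, ?_⟩⟩
          · by_contra hcon
            push Not at hcon
            apply hD'
            rw [hD, mem_filter]
            exact ⟨hp.1, (mem_Icc.1 (hS hp.1)).1, j, hj, hcon⟩
          · have g1 := hN j
            have g2 : ((p : ℕ) : ℤ) ≤ X := by exact_mod_cast (mem_Icc.1 (hS hp.1)).2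
            linarith
          · have q2 : Nv y (h j) (c j) (κ j) (v j) - (p : ℤ) = Pool.Agent.N625.PT.Nm y (h j) (c j) (κ j) (v j) + -1 * ((p : ℕ) : ℤ) := by
              have : Nv y (h j) (c j) (κ j) (v j) = Pool.Agent.N625.PT.Nm y (h j) (c j) (κ j) (v j) := rfl
              rw [this]
              ring
            rw [q2]
            exact hp.2 j hj
      have c1 : (G.card : ℝ) ≤ E.card := by exact_mod_cast card_le_card s1
      have c2 : (E.card : ℝ) ≤ G.card + D.card := by exact_mod_cast (card_le_card s2).trans (card_union_le _ _)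
      have c3 : (D.card : ℝ) ≤ ε / 2 * m := by
        have hkF : (0 : ℝ) < (k : ℝ) ^ (C + A + 2 * r) := by positivity
        have : (D.card : ℝ) * (k : ℝ) ^ (C + A + 2 * r) ≤ (ε / 2 * m) * (k : ℝ) ^ (C + A + 2 * r) := by
          calc _ ≤ ε / 2 * (b : ℝ) ^ k := g5
            _ ≤ ε / 2 * (m * (k : ℝ) ^ (C + A + 2 * r)) := mul_le_mul_of_nonneg_left hmt (by linarith)
            _ = _ := by ring
        exact le_of_mul_le_mul_right this hkF
      have c4 : ε ^ 2 / 2 * m ≤ ε / 2 * m := by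
        apply mul_le_mul_of_nonneg_right _ hm0
        nlinarith
      rw [abs_le] at hlaw1 ⊢
      constructor <;> linarith [hlaw1.1, hlaw1.2]
    · rw [if_neg hq]
      split_ifs
      · exact le_rfl
      · exact hwv
  have hfin := Pool.Agent.W2helper62.TJ.markov (Fintype.piFinset (fun _ : Fin r => range (b ^ k))) (Fintype.piFinset (fun _ : Fin r => Icc 1 H))
    (fun v => ∏ j, μ j (v j)) hw Bd ε ε hε hε.le key
  have hcardH : ((Fintype.piFinset (fun _ : Fin r => Icc 1 H)).card : ℝ) = (H : ℝ) ^ r := by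
    rw [Fintype.card_piFinset]
    simp
  rw [hcardH] at hfin
  refine le_trans (le_of_eq ?_) hfin
  apply sum_congr rfl
  intro v hv
  rw [Fintype.mem_piFinset] at hv
  have e1 : (Fintype.piFinset (fun _ : Fin r => Icc 1 H)).filter (fun h : Fin r → ℕ => ¬
            ((∀ j, 2 * (X : ℤ) ≤ Nv y (h j) (c j) (κ j) (v j)) → ∀ t : ℕ, t ≤ r →
              |((Common S (fun j => Nv y (h j) (c j) (κ j) (v j)) t).card : ℝ) - S.card / (V y * (k * Real.log b)) ^ t| ≤
                ε * (S.card / (V y * (k * Real.log b)) ^ t))) =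
      (Fintype.piFinset (fun _ : Fin r => Icc 1 H)).filter (fun h => Bd h v) := by
    apply filter_congr
    intro h _
    rw [hBd, ← hQ]
    exact ⟨fun q => ⟨hv, q⟩, fun q => q.2⟩
  simp only [e1]

end Pool.Agent.Results.MP_73b532_nt.ExchangeableCommonPrimes
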