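import Pool.Agent.W2helper67.FD.Gold
import Pool.Agent.W2helper67.FD.Ex
import Pool.Agent.R459.C2
import Pool.Agent.H560R3.GB.Defs

/-!
# Goldbach-Knjzek partitions of all the even numbers near all long truncations of almost all real numbers, with respect to
measures with Fourier decay

From Mathlib: `MeasureTheory.charFun μ ξ = ∫ exp (i ξ t) dμ(t)`, the characteristic function; `Measure.conv`, the
convolution; `μ.real s`, the measure of `s` as a real number (the outer measure if `s` is not measurable).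
Definition used (starting file `Pool.Agent.H560R3.GB.Defs`): `sing m`, the singular series of the Goldbach problem.

Method: a discrete Fejer kernel gives the decay of the characteristic functions of the integer parts `⌊Z t⌋`, which are also
not concentrated on short intervals. The passage from such distributions to windows of Goldbach representations is from
the starting files and from `Pool.Agent.N625.DY` (helper625).
-/

set_option autoImplicit false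

namespace Pool.Agent.Results.MP_73b532_nt.FourierDecayPartitions

open Finset Filter MeasureTheory Pool.Agent.H560R3.GB
open Pool.Agent.W2helper67.FD (FDec)

/-- The characteristic function of `μ` decays polynomially: `|∫ exp (i ξ t) dμ(t)| ≤ C₁ |ξ| ^ (-τ)` for `|ξ| ≥ 1`. -/
def FourierDecay (μ : Measure ℝ) (τ C₁ : ℝ) : Prop := ∀ ξ : ℝ, 1 ≤ |ξ| → ‖charFun μ ξ‖ ≤ C₁ * |ξ| ^ (-τ)

open Classical in
/-- The number of the primes `p` in the window `(y₁, y₂]` with `√(2 n) < p ≤ n` for which `2 n - p` is a prime. -/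
noncomputable def K (n y₁ y₂ : ℕ) : ℕ :=
  ((Ioc y₁ y₂).filter (fun p : ℕ => p.Prime ∧ (2 * n - p).Prime ∧ √((2 * n : ℕ) : ℝ) < p ∧ p ≤ n)).card

/-- For all windows `(y₁, y₂] ⊆ (0, n]` of length at least `n / log ^ A n` there is a prime `p` with
`√(2 n) < p ≤ n` and `y₁ < p ≤ y₂` for which `2 n - p` is a prime, and the number of these primes is
`sing (2 n) * (y₂ - y₁) / log ^ 2 (2 n)` up to a relative error of at most `ε`. -/
def Holds (ε : ℝ) (A n : ℕ) : Prop :=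
  ∀ y₁ y₂ : ℕ, y₁ < y₂ → y₂ ≤ n → (n : ℝ) / Real.log n ^ A ≤ (y₂ : ℝ) - y₁ →
    (∃ p : ℕ, p.Prime ∧ (2 * n - p).Prime ∧ √((2 * n : ℕ) : ℝ) < p ∧ p ≤ n ∧ y₁ < p ∧ p ≤ y₂) ∧
    |(K n y₁ y₂ : ℝ) - sing (2 * n) * (((y₂ : ℝ) - y₁) / Real.log (2 * n : ℕ) ^ 2)| ≤
      ε * (sing (2 * n) * (((y₂ : ℝ) - y₁) / Real.log (2 * n : ℕ) ^ 2))

lemma K_le (n y₁ y₂ : ℕ) : K n y₁ y₂ ≤ Pool.Agent.W93.PG.cnt (2 * n) y₁ y₂ := by
  classical
  unfold K Pool.Agent.W93.PG.cnt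
  apply card_le_card
  intro p hp
  rw [mem_filter] at hp ⊢
  exact ⟨hp.1, hp.2.1, hp.2.2.1⟩

lemma K_ge (n y₁ y₂ : ℕ) (hy : y₂ ≤ n) :
    (Pool.Agent.W93.PG.cnt (2 * n) y₁ y₂ : ℝ) ≤ K n y₁ y₂ + (√((2 * n : ℕ) : ℝ) + 2) := by
  classical
  have h1 : (Ioc y₁ y₂).filter (fun p => p.Prime ∧ (2 * n - p).Prime) ⊆
      (Ioc y₁ y₂).filter (fun p : ℕ => p.Prime ∧ (2 * n - p).Prime ∧ √((2 * n : ℕ) : ℝ) < p ∧ p ≤ n) ∪
      range (⌊√((2 * n : ℕ) : ℝ)⌋₊ + 1) := by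
    intro p hp
    rw [mem_filter, mem_Ioc] at hp
    rw [mem_union, mem_filter, mem_Ioc, mem_range]
    obtain ⟨⟨a1, a2⟩, a3, a4⟩ := hp
    by_cases h2 : √((2 * n : ℕ) : ℝ) < p
    · exact Or.inl ⟨⟨a1, a2⟩, a3, a4, h2, a2.trans hy⟩
    · right
      rw [Nat.lt_succ_iff]
      exact Nat.le_floor (not_lt.1 h2)
  have h3 := (card_le_card h1).trans (card_union_le _ _)
  rw [card_range] at h3
  have h4 : (Pool.Agent.W93.PG.cnt (2 * n) y₁ y₂ : ℝ) ≤ K n y₁ y₂ + ((⌊√((2 * n : ℕ) : ℝ)⌋₊ : ℝ) + 1) := by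
    unfold Pool.Agent.W93.PG.cnt K
    exact_mod_cast h3
  have h5 := Nat.floor_le (Real.sqrt_nonneg ((2 * n : ℕ) : ℝ))
  linarith

lemma holds_of (A : ℕ) (ε : ℝ) (hε : 0 < ε) : ∃ m₀ : ℕ, ∀ n : ℕ, m₀ ≤ 2 * n →
    Pool.Agent.W93.PG.WinP (min ε (1 / 2) / 2) (A + 1) (2 * n) → Holds ε A n := by
  obtain ⟨ε', hε'⟩ : ∃ ε', ε' = min ε (1 / 2) := ⟨_, rfl⟩
  have he0 : 0 < ε' := by rw [hε']; exact lt_min hε (by norm_num)
  have he1 : ε' ≤ ε := by rw [hε']; exact min_le_left _ _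
  have he2 : ε' ≤ 1 / 2 := by rw [hε']; exact min_le_right _ _
  obtain ⟨n1, h1⟩ := Pool.Agent.H373R2.T7.ev_L' 3
  obtain ⟨n2, h2⟩ := Pool.Agent.H373R2.T7.ev_log' (A + 2) (10 / ε')
  rw [← hε']
  refine ⟨n1 + n2 + 6, fun n hn hw => ?_⟩
  have hL := h1 (2 * n) (by omega)
  have hc := h2 (2 * n) (by omega)
  intro y₁ y₂ hy hyn hl
  have hn3 : (3 : ℝ) ≤ n := by exact_mod_cast (by omega : 3 ≤ n)
  obtain ⟨L, hLd⟩ : ∃ L, L = Real.log ((2 * n : ℕ) : ℝ) := ⟨_, rfl⟩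
  obtain ⟨R, hR⟩ : ∃ R, R = √((2 * n : ℕ) : ℝ) := ⟨_, rfl⟩
  have hR2 : R * R = 2 * n := by
    rw [hR, Real.mul_self_sqrt (Nat.cast_nonneg _)]
    push_cast
    ring
  have hR1 : 1 ≤ R := by
    rw [hR]
    apply Real.one_le_sqrt.2
    push_cast
    linarith
  rw [← hLd] at hL hc
  rw [← hR] at hc
  have hlog0 : 1 ≤ Real.log (n : ℝ) := by
    rw [Real.le_log_iff_exp_le (by linarith)]
    linarith [Real.exp_one_lt_d9]
  have hlogL : Real.log (n : ℝ) ≤ L := by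
    rw [hLd]
    exact Real.log_le_log (by linarith) (by exact_mod_cast (by omega : n ≤ 2 * n))
  have hyr : (y₁ : ℝ) < y₂ := by exact_mod_cast hy
  obtain ⟨D, hD⟩ : ∃ D : ℝ, D = (y₂ : ℝ) - y₁ := ⟨_, rfl⟩
  have hD1 : n / L ^ A ≤ D := by
    rw [hD]
    refine le_trans ?_ hl
    apply div_le_div_of_nonneg_left (by linarith) (by positivity)
    exact pow_le_pow_left₀ (by linarith) hlogL _
  have hwin := hw y₁ y₂ hy (by omega) (by
    rw [← hLd, ← hD]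
    refine le_trans ?_ hD1
    have e : ((2 * n : ℕ) : ℝ) = 2 * n := by push_cast; ring
    rw [e, pow_succ, div_le_div_iff₀ (by positivity) (by positivity)]
    have : 0 ≤ (n : ℝ) * L ^ A := by positivity
    nlinarith)
  rw [← hLd, ← hD] at hwin
  obtain ⟨M, hM⟩ : ∃ M : ℝ, M = sing (2 * n) * (D / L ^ 2) := ⟨_, rfl⟩
  have e1 : sing (2 * n) * D / L ^ 2 = M := by rw [hM]; ring
  rw [e1] at hwin
  rw [← hLd, ← hD, ← hM]
  have hs := Pool.Agent.R459.sing_num (2 * n)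
  have hD0 : 0 < D := by rw [hD]; linarith
  have hQ0 : 0 < D / L ^ 2 := by positivity
  have hM1 : 327 / 250 * (D / L ^ 2) ≤ M := by
    rw [hM]
    exact mul_le_mul_of_nonneg_right hs hQ0.le
  have hbig : R + 2 ≤ ε' / 2 * M := by
    have h3 : n / L ^ (A + 2) ≤ D / L ^ 2 := by
      rw [pow_add, ← div_div]
      exact div_le_div_of_nonneg_right hD1 (by positivity)
    have h4 : 10 / ε' * L ^ (A + 2) ≤ R := hc
    have h5 : 5 * R ≤ ε' * (n / L ^ (A + 2)) := by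
      rw [mul_div_assoc', le_div_iff₀ (by positivity)]
      have h6 : 10 * L ^ (A + 2) ≤ ε' * R := by
        have h7 : ε' * (10 / ε' * L ^ (A + 2)) ≤ ε' * R := mul_le_mul_of_nonneg_left h4 he0.le
        have h8 : ε' * (10 / ε' * L ^ (A + 2)) = 10 * L ^ (A + 2) := by field_simp
        rw [← h8]
        exact h7
      have h9 : R * (10 * L ^ (A + 2)) ≤ R * (ε' * R) := mul_le_mul_of_nonneg_left h6 (by linarith)
      have h10 : R * (ε' * R) = ε' * (2 * n) := by rw [← hR2]; ring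
      nlinarith
    have h11 : ε' * (n / L ^ (A + 2)) ≤ ε' * (D / L ^ 2) := mul_le_mul_of_nonneg_left h3 he0.le
    have h12 : ε' * (327 / 250 * (D / L ^ 2)) ≤ ε' * M := mul_le_mul_of_nonneg_left hM1 he0.le
    nlinarith
  have hK1 : (K n y₁ y₂ : ℝ) ≤ Pool.Agent.W93.PG.cnt (2 * n) y₁ y₂ := by exact_mod_cast K_le n y₁ y₂
  have hK2 := K_ge n y₁ y₂ hyn
  rw [← hR] at hK2
  have hM0 : 0 < M := by linarith [mul_pos (by norm_num : (0 : ℝ) < 327 / 250) hQ0]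
  have hfin : |(K n y₁ y₂ : ℝ) - M| ≤ ε' * M := by
    rw [abs_le] at hwin ⊢
    constructor <;> linarith [hwin.1, hwin.2]
  refine ⟨?_, hfin.trans (mul_le_mul_of_nonneg_right he1 hM0.le)⟩
  have hpos : 0 < K n y₁ y₂ := by
    have h3 := (abs_le.1 hfin).1
    have h4 : (0 : ℝ) < K n y₁ y₂ := by nlinarith
    exact_mod_cast h4
  classical
  unfold K at hpos
  obtain ⟨p, hp⟩ := card_pos.1 hpos
  rw [mem_filter, mem_Ioc] at hp
  exact ⟨p, hp.2.1, hp.2.2.1, hp.2.2.2.1, hp.2.2.2.2, hp.1.1, hp.1.2⟩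

/-- All the positive even integers `m` with `|m - n| ≤ log ^ W Z` have the property `Holds ε A (m / 2)`. -/
def Near (ε : ℝ) (A W : ℕ) (Z : ℝ) (n : ℤ) : Prop :=
  ∀ m : ℤ, |(m : ℝ) - n| ≤ Real.log Z ^ W → 0 < m → Even m → Holds ε A (m.toNat / 2)

/-- **(1)** Let `τ > 0`, `C₁`, `κ ≠ 0`, `A`, `W`, `u`, `B` and `ε > 0` be fixed. For all large real `Z`, all probability
measures `μ` on `[0, 1)` with `|∫ exp (i ξ t) dμ(t)| ≤ C₁ |ξ| ^ (-τ)` for `|ξ| ≥ 1`, and all integers `c₀` with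
`|c₀| ≤ B Z`, all real numbers `t` outside a set of `μ`-measure at most `1 / log ^ u Z` have the following property. Let
`n = c₀ + κ ⌊Z t⌋`. Every positive even integer `m` at a distance of at most `log ^ W Z` from `n` has the following property,
with `m = 2 h`: for all windows `(y₁, y₂] ⊆ (0, h]` of a length of at least `h / log ^ A h` there is a prime `p` in the window
with `√m < p ≤ h` for which `m - p` is a prime, and the number of these `p` is as predicted, up to a relative error of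
at most `ε`.

**(2)** ALL but finitely many truncations of almost all real numbers. Let `μ` be as in (1), `κ ≠ 0`, let `a j` be real
numbers with `a j ≥ exp (j ^ δ)` for all large `j`, where `δ > 0` (for example, `a j = 2 ^ j` or `a j = 10 ^ j`), and `c j`
integers with `|c j| ≤ B a j`. For `μ`-almost all real numbers `t`, for all `A`, `W` and `ε > 0`: for all but finitely many
`j`, the integer `n = c j + κ ⌊a j t⌋` has the property in (1) with `Z = a j`.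

**(3)** The hypothesis holds with `τ = 1`, `C₁ = 2` for the uniform distributions on the intervals `[u, u + 1)` (for `u = 0`
the measure is on `[0, 1)`), and if it holds for `μ`, then it holds for the convolutions of `μ` and all probability measures
(with the same `τ` and `C₁`). -/
theorem result :
    (∀ (τ C₁ : ℝ), 0 < τ → ∀ (κ : ℤ), κ ≠ 0 → ∀ (A W u B : ℕ) (ε : ℝ), 0 < ε → ∃ Z₀ : ℝ, ∀ Z : ℝ, Z₀ ≤ Z →
      ∀ (μ : Measure ℝ) [IsProbabilityMeasure μ], FourierDecay μ τ C₁ → (∀ᵐ t ∂μ, 0 ≤ t ∧ t < 1) →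
      ∀ c₀ : ℤ, |(c₀ : ℝ)| ≤ B * Z →
      μ.real {t | ¬ Near ε A W Z (c₀ + κ * ⌊Z * t⌋)} ≤ 1 / Real.log Z ^ u) ∧
    (∀ (τ C₁ : ℝ), 0 < τ → ∀ (μ : Measure ℝ) [IsProbabilityMeasure μ], FourierDecay μ τ C₁ →
      (∀ᵐ t ∂μ, 0 ≤ t ∧ t < 1) → ∀ (κ : ℤ), κ ≠ 0 → ∀ (B : ℕ) (δ : ℝ), 0 < δ → ∀ (a : ℕ → ℝ) (c : ℕ → ℤ),
      (∀ᶠ j : ℕ in atTop, Real.exp ((j : ℝ) ^ δ) ≤ a j) → (∀ j, |(c j : ℝ)| ≤ B * a j) →
      ∀ᵐ t ∂μ, ∀ (A W : ℕ) (ε : ℝ), 0 < ε → ∀ᶠ j in atTop, Near ε A W (a j) (c j + κ * ⌊a j * t⌋)) ∧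
    (∀ u : ℝ, IsProbabilityMeasure (volume.restrict (Set.Ico u (u + 1))) ∧
      FourierDecay (volume.restrict (Set.Ico u (u + 1))) 1 2) ∧
    (∀ (μ ν : Measure ℝ) [IsProbabilityMeasure μ] [IsProbabilityMeasure ν] (τ C₁ : ℝ), FourierDecay μ τ C₁ →
      FourierDecay (μ.conv ν) τ C₁) := by
  classical
  have H1 : ∀ (τ C₁ : ℝ), 0 < τ → ∀ (κ : ℤ), κ ≠ 0 → ∀ (A W u B : ℕ) (ε : ℝ), 0 < ε → ∃ Z₀ : ℝ, ∀ Z : ℝ, Z₀ ≤ Z →
      ∀ (μ : Measure ℝ) [IsProbabilityMeasure μ], FourierDecay μ τ C₁ → (∀ᵐ t ∂μ, 0 ≤ t ∧ t < 1) →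
      ∀ c₀ : ℤ, |(c₀ : ℝ)| ≤ B * Z →
      μ.real {t | ¬ Near ε A W Z (c₀ + κ * ⌊Z * t⌋)} ≤ 1 / Real.log Z ^ u := by
    intro τ C₁ hτ κ hκ A W u B ε hε
    obtain ⟨m₀, h0⟩ := holds_of A ε hε
    obtain ⟨Z₀, h⟩ := Pool.Agent.W2helper67.FD.fd_gold hτ C₁ κ hκ (A + 1) W u B m₀
      (min ε (1 / 2) / 2) (div_pos (lt_min hε (by norm_num)) (by norm_num)) (fun m => Holds ε A (m / 2)) (by
        intro m hm h2 hwin
        have e : 2 * (m / 2) = m := Nat.mul_div_cancel' h2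
        exact h0 (m / 2) (by omega) (by rw [e]; exact hwin))
    exact ⟨Z₀, fun Z hZ μ _ hμ hs c₀ hc₀ => h Z hZ μ hμ hs c₀ hc₀⟩
  refine ⟨H1, ?_, fun u => ⟨Pool.Agent.W2helper67.FD.prob_unif u, Pool.Agent.W2helper67.FD.fdec_unif u⟩,
    fun μ ν _ _ τ C₁ h => Pool.Agent.W2helper67.FD.fdec_conv μ ν h⟩
  intro τ C₁ hτ μ _ hμ hs κ hκ B δ hδ a c ha hc
  have hfix : ∀ᵐ t ∂μ, ∀ (A W i : ℕ), ∀ᶠ j in atTop, Near (1 / ((i : ℝ) + 1)) A W (a j) (c j + κ * ⌊a j * t⌋) := by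
    refine ae_all_iff.2 fun A => ae_all_iff.2 fun W => ae_all_iff.2 fun i => ?_
    obtain ⟨u, hu⟩ := exists_nat_ge (2 / δ)
    have hi0 : (0 : ℝ) < 1 / ((i : ℝ) + 1) := by positivity
    obtain ⟨Z₀, h⟩ := H1 τ C₁ hτ κ hκ A W u B _ hi0
    have hu2 : 2 ≤ δ * u := by
      rw [div_le_iff₀ hδ] at hu
      linarith
    have h1 := Pool.Agent.W2helper67.FD.borel_exp μ
      (fun j => {t | ¬ Near (1 / ((i : ℝ) + 1)) A W (a j) (c j + κ * ⌊a j * t⌋)})
      a δ hδ ha u hu2 Z₀ (fun j hj => h (a j) hj μ hμ hs (c j) (hc j))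
    filter_upwards [h1] with t ht
    filter_upwards [ht] with j hj
    by_contra hcon
    exact hj hcon
  filter_upwards [hfix] with t ht A W ε hε
  obtain ⟨i, hi⟩ := exists_nat_one_div_lt hε
  filter_upwards [ht A W i] with j hj m hm hm0 hme y₁ y₂ hy1 hy2 hy3
  obtain ⟨g1, g2⟩ := hj m hm hm0 hme y₁ y₂ hy1 hy2 hy3
  refine ⟨g1, g2.trans ?_⟩
  apply mul_le_mul_of_nonneg_right hi.le
  have hs0 := Pool.Agent.R459.sing_num (2 * (m.toNat / 2))
  have hyr : (y₁ : ℝ) < y₂ := by exact_mod_cast hy1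
  apply mul_nonneg (by linarith)
  apply div_nonneg (by linarith) (by positivity)

end Pool.Agent.Results.MP_73b532_nt.FourierDecayPartitions
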