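import Pool.Agent.W2helper64.RK.Gold
import Pool.Agent.W2helper64.GB.Asy

set_option autoImplicit false

/-!
# Goldbach–Knjzek partitions in the random sieve model of Banks, Ford and Tao

For every prime `p` a residue class `a p` modulo `p` is chosen uniformly and independently. The random
set `R` consists of the natural numbers `n ≥ e ^ 2` which avoid the class `a p` for every prime `p` with
`∏_(q ≤ p) (1 - 1 / q) ≥ 1 / log n`; this is the random sieve model for the primes of Banks, Ford and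
Tao, in which the classes `0 mod p` of the sieve of Eratosthenes are replaced by random ones.

We prove that almost surely for every large even number `2 n` the number of the partitions `2 n = r + s`
with `r, s ∈ R` and `√(2 n) < r ≤ n` is given by the formula of Hardy and Littlewood with the constant
`S_n = 2 ∏_(p > 2) (1 - 1 / (p - 1) ^ 2) ∏_(p > 2, n ∈ a p) (p - 1) / (p - 2)`, where `n ∈ a p` replaces
`p ∣ n`, and with an error `O(n / (log n) ^ U)` for every `U`. The summand `r` can also be found in every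
interval `(y, y + (log 2 n) ^ C]` with `7 ≤ y` and `y + (log 2 n) ^ C + 8 ≤ 2 n`, with an absolute
constant `C`.
-/

namespace Pool.Agent.Results.MP_73b532_nt.RandomSievePartitions

open Filter MeasureTheory Topology

/-- the product `V y = ∏_(p ≤ y, p prime) (1 - 1 / p)` -/
noncomputable def V (y : ℕ) : ℝ := ∏ p ∈ (Finset.Icc 1 y).filter Nat.Prime, (1 - 1 / (p : ℝ))

/-- the random set: all `n ≥ e ^ 2` outside the chosen class `a p` for every prime `p` with
`V p ≥ 1 / log n` -/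
def R (a : (p : Nat.Primes) → ZMod (p : ℕ)) : Set ℕ :=
  {n | Real.exp 2 ≤ n ∧ ∀ p : Nat.Primes, 1 ≤ V (p : ℕ) * Real.log n → ((n : ℕ) : ZMod (p : ℕ)) ≠ a p}

/-- the chosen classes `a p`, `p` prime, are independent and uniform modulo `p` -/
noncomputable def law : Measure ((p : Nat.Primes) → ZMod (p : ℕ)) :=
  Measure.infinitePi fun p : Nat.Primes => ProbabilityTheory.uniformOn (Set.univ : Set (ZMod (p : ℕ)))

/-- the number of the `r ∈ R` with `√(2 n) < r ≤ n` and `2 n - r ∈ R` -/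
noncomputable def partitions (a : (p : Nat.Primes) → ZMod (p : ℕ)) (n : ℕ) : ℕ :=
  {r : ℕ | √(2 * n : ℝ) < r ∧ r ≤ n ∧ r ∈ R a ∧ 2 * n - r ∈ R a}.ncard

/-- the primes `p` with `m ≤ p ≤ z` -/
def primes (m z : ℕ) : Finset Nat.Primes := (Finset.Icc m z).subtype Nat.Prime

open Classical in
/-- the partial products of the constant
`2 ∏_(p > 2) (1 - 1 / (p - 1) ^ 2) ∏_(p > 2, n ∈ a p) (p - 1) / (p - 2)` -/
noncomputable def series (a : (p : Nat.Primes) → ZMod (p : ℕ)) (n z : ℕ) : ℝ :=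
  2 * ∏ p ∈ primes 3 z, ((1 - 1 / (((p : ℕ) : ℝ) - 1) ^ 2) *
    if ((n : ℕ) : ZMod (p : ℕ)) = a p then (((p : ℕ) : ℝ) - 1) / (((p : ℕ) : ℝ) - 2) else 1)

/-- the sum of `1 / (log r log (2 n - r))` over the `r` with `√(2 n) < r ≤ n` -/
noncomputable def mainTerm (n : ℕ) : ℝ :=
  ∑ r ∈ (Finset.Icc 1 n).filter (fun r => 2 * n < r ^ 2), 1 / (Real.log r * Real.log (2 * n - r))

theorem sqrt_lt_iff (n r : ℕ) : √(2 * n : ℝ) < r ↔ 2 * n < r ^ 2 := by
  rw [Real.sqrt_lt (by positivity) (Nat.cast_nonneg r)]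
  constructor
  · intro h
    exact_mod_cast h
  · intro h
    exact_mod_cast h

theorem series_eq (a : (p : Nat.Primes) → ZMod (p : ℕ)) (n z : ℕ) (hz : 2 ≤ z) :
    series a n z = Pool.Agent.W2helper64.GB.SN (2 * n) a z := by
  classical
  rw [Pool.Agent.W2helper64.GB.SN_split (even_two_mul n) a hz]
  unfold series
  rw [mul_assoc, ← Finset.prod_mul_distrib]
  congr 1
  have hset : primes 3 z = Pool.Agent.W2helper64.BH.Pr 2 z := by
    ext p
    rw [Pool.Agent.W2helper64.BH.mem_Pr]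
    have h : p ∈ primes 3 z ↔ (p : ℕ) ∈ Finset.Icc 3 z := Finset.mem_subtype
    refine Iff.trans h ?_
    rw [Finset.mem_Icc]
    omega
  rw [hset]
  refine Finset.prod_congr rfl fun p hp => ?_
  rw [Pool.Agent.W2helper64.BH.mem_Pr] at hp
  have hp3 : (3 : ℝ) ≤ ((p : ℕ) : ℝ) := by exact_mod_cast (by omega : 3 ≤ (p : ℕ))
  have : Fact (p : ℕ).Prime := ⟨p.2⟩
  have h20 : (2 : ZMod (p : ℕ)) ≠ 0 := by
    intro h0
    have h1 : ((2 : ℕ) : ZMod (p : ℕ)) = 0 := by exact_mod_cast h0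
    rw [ZMod.natCast_eq_zero_iff] at h1
    have := (Nat.prime_dvd_prime_iff_eq p.2 Nat.prime_two).mp h1
    omega
  have hiff : (((n : ℕ) : ZMod (p : ℕ)) = a p) ↔ 2 * a p = ((2 * n : ℕ) : ZMod (p : ℕ)) := by
    push_cast
    constructor
    · intro h
      rw [h]
    · intro h
      exact (mul_left_cancel₀ h20 h).symm
  unfold Pool.Agent.W2helper64.GB.fA Pool.Agent.W2helper64.GB.fB
  have h1 : ((p : ℕ) : ℝ) ≠ 0 := by linarith
  have h2 : ((p : ℕ) : ℝ) - 1 ≠ 0 := by linarith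
  have h3 : ((p : ℕ) : ℝ) - 2 ≠ 0 := by linarith
  have h4 : 1 - 1 / ((p : ℕ) : ℝ) = (((p : ℕ) : ℝ) - 1) / ((p : ℕ) : ℝ) := by field_simp
  by_cases h : ((n : ℕ) : ZMod (p : ℕ)) = a p
  · rw [if_pos h, if_pos (hiff.mp h), if_pos (hiff.mp h), h4]
    field_simp
    ring
  · rw [if_neg h, if_neg (fun h' => h (hiff.mpr h')), if_neg (fun h' => h (hiff.mpr h')), h4]
    field_simp
    ring

theorem partitions_eq (a : (p : Nat.Primes) → ZMod (p : ℕ)) (n : ℕ) :
    partitions a n = Pool.Agent.W2helper64.GB.Kc n a := by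
  classical
  unfold partitions Pool.Agent.W2helper64.GB.Kc
  rw [← Set.ncard_coe_finset]
  congr 1
  ext r
  rw [Finset.mem_coe, Pool.Agent.W2helper64.RK.mf', Finset.mem_filter, Finset.mem_Icc]
  have h0 : 2 * n < r ^ 2 → 1 ≤ r := by
    intro h
    rcases Nat.eq_zero_or_pos r with h1 | h1
    · rw [h1] at h; omega
    · exact h1
  constructor
  · rintro ⟨h1, h2, h3⟩
    rw [sqrt_lt_iff] at h1
    exact ⟨⟨⟨h0 h1, h2⟩, h1⟩, h3⟩
  · rintro ⟨⟨h1, h2⟩, h3⟩
    exact ⟨(sqrt_lt_iff n r).mpr h2, h1.2, h3⟩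

theorem counts : ∀ᵐ a ∂law, ∀ U : ℕ, ∀ ε : ℝ, 0 < ε → ∀ᶠ n : ℕ in atTop,
    ∃ S : ℝ, 1 ≤ S ∧ Tendsto (series a n) atTop (𝓝 S) ∧
      |(partitions a n : ℝ) - S * mainTerm n| ≤ n / Real.log n ^ U ∧
      |(partitions a n : ℝ) - S * (n / Real.log n ^ 2)| ≤ ε * (S * (n / Real.log n ^ 2)) := by
  show ∀ᵐ a ∂Pool.Agent.W2helper64.RS.law, _
  filter_upwards [Pool.Agent.W2helper64.GB.ae_gold_asymp] with a ha U ε hε
  have hlog : Tendsto (fun x : ℕ => Real.log (x : ℝ)) atTop atTop :=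
    Real.tendsto_log_atTop.comp tendsto_natCast_atTop_atTop
  have hM := (Metric.tendsto_nhds.mp Pool.Agent.W2helper64.GB.Mc_asymp) (ε / 2) (by positivity)
  filter_upwards [ha (max U 3), hM, hlog.eventually_ge_atTop (1 + 2 / ε), eventually_ge_atTop 1] with n h1 h2 h3 h4
  obtain ⟨S, s1, s2, s3⟩ := h1
  rw [partitions_eq]
  have hn0 : (0 : ℝ) < n := by exact_mod_cast h4
  have he : 0 < 2 / ε := by positivity
  set L := Real.log (n : ℝ) with hL
  have hL1 : 1 ≤ L := by linarith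
  have hL0 : 0 < L := by linarith
  have hMM : mainTerm n = Pool.Agent.W2helper64.GB.Mc n := rfl
  rw [hMM]
  refine ⟨S, s1, ?_, ?_, ?_⟩
  · refine s2.congr' ?_
    filter_upwards [eventually_ge_atTop 2] with z hz
    exact (series_eq a n z hz).symm
  · refine s3.trans ?_
    apply div_le_div_of_nonneg_left hn0.le (by positivity)
    exact pow_le_pow_right₀ hL1 (le_max_left _ _)
  · rw [Real.dist_eq] at h2
    have e1 : |Pool.Agent.W2helper64.GB.Mc n - n / L ^ 2| ≤ ε / 2 * (n / L ^ 2) := by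
      have e2 : Pool.Agent.W2helper64.GB.Mc n - n / L ^ 2 =
          (Pool.Agent.W2helper64.GB.Mc n * L ^ 2 / n - 1) * (n / L ^ 2) := by
        field_simp
      rw [e2, abs_mul, abs_of_nonneg (by positivity : (0 : ℝ) ≤ n / L ^ 2)]
      exact mul_le_mul_of_nonneg_right h2.le (by positivity)
    have e3 : (n : ℝ) / L ^ (max U 3) ≤ ε / 2 * (S * (n / L ^ 2)) := by
      have e4 : (n : ℝ) / L ^ (max U 3) ≤ n / L ^ 3 := by
        apply div_le_div_of_nonneg_left hn0.le (by positivity)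
        exact pow_le_pow_right₀ hL1 (le_max_right _ _)
      have e5 : (n : ℝ) / L ^ 3 ≤ ε / 2 * (n / L ^ 2) := by
        have e6 : (n : ℝ) / L ^ 3 = 1 / L * (n / L ^ 2) := by
          field_simp
        rw [e6]
        apply mul_le_mul_of_nonneg_right _ (by positivity)
        rw [div_le_iff₀ hL0]
        have e7 : 2 / ε ≤ L := by linarith
        rw [div_le_iff₀ hε] at e7
        linarith
      have e8 : ε / 2 * (n / L ^ 2) ≤ ε / 2 * (S * (n / L ^ 2)) := by
        apply mul_le_mul_of_nonneg_left _ (by positivity)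
        exact le_mul_of_one_le_left (by positivity) s1
      linarith
    have e9 : |S * Pool.Agent.W2helper64.GB.Mc n - S * (n / L ^ 2)| ≤ ε / 2 * (S * (n / L ^ 2)) := by
      rw [← mul_sub, abs_mul, abs_of_nonneg (by linarith : (0 : ℝ) ≤ S)]
      calc S * |Pool.Agent.W2helper64.GB.Mc n - n / L ^ 2| ≤ S * (ε / 2 * (n / L ^ 2)) :=
            mul_le_mul_of_nonneg_left e1 (by linarith)
        _ = _ := by ring
    calc |(Pool.Agent.W2helper64.GB.Kc n a : ℝ) - S * (n / L ^ 2)| =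
          |((Pool.Agent.W2helper64.GB.Kc n a : ℝ) - S * Pool.Agent.W2helper64.GB.Mc n) +
            (S * Pool.Agent.W2helper64.GB.Mc n - S * (n / L ^ 2))| := by congr 1; ring
      _ ≤ _ := (abs_add_le _ _).trans (by linarith [s3])

/-- There is a constant `C` such that almost surely:
* for all large even `N` and all `y` with `7 ≤ y` and `y + (log N) ^ C + 8 ≤ N` there is an `r ∈ R` with
`y < r ≤ y + (log N) ^ C` and `N - r ∈ R`;
* for all large `n` there is an `r ∈ R` with `√(2 n) < r ≤ n`, moreover `r ≤ √(2 n) + (log (2 n)) ^ C`,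
and `2 n - r ∈ R`. -/
theorem intervals : ∃ C : ℝ, ∀ᵐ a ∂law,
    (∀ᶠ N : ℕ in atTop, Even N → ∀ y : ℕ, 7 ≤ y → (y : ℝ) + Real.log N ^ C + 8 ≤ N →
      ∃ r : ℕ, y < r ∧ (r : ℝ) ≤ y + Real.log N ^ C ∧ r ∈ R a ∧ N - r ∈ R a) ∧
    (∀ᶠ n : ℕ in atTop, ∃ r : ℕ, √(2 * n : ℝ) < r ∧ r ≤ n ∧
      (r : ℝ) ≤ √(2 * n : ℝ) + Real.log (2 * n : ℝ) ^ C ∧ r ∈ R a ∧ 2 * n - r ∈ R a) := by
  obtain ⟨C, hC, h⟩ := Pool.Agent.W2helper64.RK.ae_gold
  refine ⟨C, ?_⟩
  show ∀ᵐ a ∂Pool.Agent.W2helper64.RS.law, _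
  filter_upwards [h] with a ha
  refine ⟨ha, ?_⟩
  have hdouble : Tendsto (fun n : ℕ => 2 * n) atTop atTop :=
    tendsto_id.const_mul_atTop' (by norm_num)
  -- the sizes
  have h1 : ∀ᶠ n : ℕ in atTop, Real.log (2 * n : ℝ) ^ C ≤ (n : ℝ) / 4 := by
    have e1 := (isLittleO_log_rpow_rpow_atTop C (show (0 : ℝ) < 1 by norm_num)).bound
        (show (0 : ℝ) < 1 / 8 by norm_num)
    have e2 := (tendsto_natCast_atTop_atTop.comp hdouble).eventually e1
    filter_upwards [e2, eventually_ge_atTop 1] with n hn hn1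
    have hcast : (((2 * n : ℕ) : ℕ) : ℝ) = 2 * n := by push_cast; ring
    simp only [Function.comp_apply, hcast] at hn
    have hn1' : (1 : ℝ) ≤ n := by exact_mod_cast hn1
    have hl : 0 ≤ Real.log (2 * n : ℝ) := Real.log_nonneg (by linarith)
    rw [Real.norm_of_nonneg (by positivity), Real.norm_of_nonneg (by positivity), Real.rpow_one] at hn
    linarith
  filter_upwards [hdouble.eventually ha, h1, eventually_ge_atTop 100] with n hn hsmall hn100
  have hn100' : (100 : ℝ) ≤ n := by exact_mod_cast hn100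
  set y : ℕ := ⌊√(2 * n : ℝ)⌋₊ with hy
  have hyle : (y : ℝ) ≤ √(2 * n : ℝ) := Nat.floor_le (Real.sqrt_nonneg _)
  have hygt : √(2 * n : ℝ) < y + 1 := Nat.lt_floor_add_one _
  have hsq : √(2 * n : ℝ) * √(2 * n : ℝ) = 2 * n := Real.mul_self_sqrt (by positivity)
  have hs0 : 0 ≤ √(2 * n : ℝ) := Real.sqrt_nonneg _
  have hs14 : 14 ≤ √(2 * n : ℝ) := by
    apply Real.le_sqrt_of_sq_le
    linarith
  have hs2 : √(2 * n : ℝ) ≤ n / 4 := by nlinarith
  have hy7 : 7 ≤ y := Nat.le_floor (by push_cast; linarith)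
  have hcast : (((2 * n : ℕ) : ℕ) : ℝ) = 2 * n := by push_cast; ring
  obtain ⟨r, hr1, hr2, hr3, hr4⟩ := hn (even_two_mul n) y hy7 (by
    rw [hcast]
    linarith)
  rw [hcast] at hr2
  refine ⟨r, ?_, ?_, by linarith, hr3, hr4⟩
  · have : ((y + 1 : ℕ) : ℝ) ≤ r := by exact_mod_cast hr1
    push_cast at this
    linarith
  · have : (r : ℝ) ≤ n := by linarith
    exact_mod_cast this

/-- * Almost surely, for all `U` and `ε > 0` and all large `n` the products
`2 ∏_(2 < p ≤ z) (1 - 1 / (p - 1) ^ 2) ∏_(2 < p ≤ z, n ∈ a p) (p - 1) / (p - 2)` converge to some `S ≥ 1`, and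
the number of the `r ∈ R` with `√(2 n) < r ≤ n` and `2 n - r ∈ R` differs from
`S ∑_(√(2 n) < r ≤ n) 1 / (log r log (2 n - r))` by at most `n / (log n) ^ U`, and from `S n / (log n) ^ 2` by
at most `ε S n / (log n) ^ 2`.
* There is a constant `C` such that almost surely for all large even `N` and all `y` with `7 ≤ y` and
`y + (log N) ^ C + 8 ≤ N` there is an `r ∈ R` with `y < r ≤ y + (log N) ^ C` and `N - r ∈ R`, and for all large
`n` there is an `r ∈ R` with `√(2 n) < r ≤ n`, moreover `r ≤ √(2 n) + (log (2 n)) ^ C`, and `2 n - r ∈ R`. -/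
theorem result :
    (∀ᵐ a ∂law, ∀ U : ℕ, ∀ ε : ℝ, 0 < ε → ∀ᶠ n : ℕ in atTop,
      ∃ S : ℝ, 1 ≤ S ∧ Tendsto (series a n) atTop (𝓝 S) ∧
        |(partitions a n : ℝ) - S * mainTerm n| ≤ n / Real.log n ^ U ∧
        |(partitions a n : ℝ) - S * (n / Real.log n ^ 2)| ≤ ε * (S * (n / Real.log n ^ 2))) ∧
    ∃ C : ℝ, ∀ᵐ a ∂law,
      (∀ᶠ N : ℕ in atTop, Even N → ∀ y : ℕ, 7 ≤ y → (y : ℝ) + Real.log N ^ C + 8 ≤ N →
        ∃ r : ℕ, y < r ∧ (r : ℝ) ≤ y + Real.log N ^ C ∧ r ∈ R a ∧ N - r ∈ R a) ∧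
      (∀ᶠ n : ℕ in atTop, ∃ r : ℕ, √(2 * n : ℝ) < r ∧ r ≤ n ∧
        (r : ℝ) ≤ √(2 * n : ℝ) + Real.log (2 * n : ℝ) ^ C ∧ r ∈ R a ∧ 2 * n - r ∈ R a) :=
  ⟨counts, intervals⟩

end Pool.Agent.Results.MP_73b532_nt.RandomSievePartitions
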